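import Pool.Agent.Helper77.K4.Lie
import Pool.Agent.Helper77.KT.Lat

/-!
# Theorem K4R, module LA1: one field, and `dim E = 1`
-/

set_option autoImplicit false
set_option linter.unusedSectionVars false

open Set Module

namespace Pool.Agent.Helper77.K4

/-! ### Semi-invariant endomorphisms -/

section semi

variable {V G : Type*} [NormedAddCommGroup V] [NormedSpace ℝ V] [Group G]
  {a : G →* (V ≃ᵃ[ℝ] V)}

/-- `X` is mapped to multiples of itself by the linear parts. -/
def Semi (a : G →* (V ≃ᵃ[ℝ] V)) (H : Subgroup G) (X : V →ₗ[ℝ] V) : Prop :=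
  ∀ g ∈ H, ∃ c : ℝ, ∀ v, (a g).linear (X v) = c • X ((a g).linear v)

variable {H : Subgroup G} {X : V →ₗ[ℝ] V} {W : Submodule ℝ V}

theorem Semi.map (h : Semi a H X) (hW : LInv a H W) : LInv a H (W.map X) := by
  rintro g hg _ ⟨v, hv, rfl⟩
  obtain ⟨c, hc⟩ := h g hg
  rw [hc]
  exact Submodule.smul_mem _ _ ⟨_, hW g hg v hv, rfl⟩

theorem Semi.comap (h : Semi a H X) (hW : LInv a H W) : LInv a H (W.comap X) := by
  intro g hg v hv
  obtain ⟨c, hc⟩ := h g⁻¹ (H.inv_mem hg)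
  have h1 := hc ((a g).linear v)
  rw [lin_inv] at h1
  have h2 : X ((a g).linear v) = (a g).linear (c • X v) := by rw [← h1, lin_inv']
  rw [Submodule.mem_comap, h2]
  exact hW g hg _ (W.smul_mem _ hv)

theorem Semi.range (h : Semi a H X) : LInv a H (LinearMap.range X) := by
  rw [LinearMap.range_eq_map]
  exact h.map LInv.top

theorem Semi.ker (h : Semi a H X) : LInv a H (LinearMap.ker X) := h.comap LInv.bot

end semi

/-! ### Dimensions -/

section dims

variable {V : Type*} [NormedAddCommGroup V] [NormedSpace ℝ V] [FiniteDimensional ℝ V]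
  {X : V →ₗ[ℝ] V}

theorem finrank_le_map (X : V →ₗ[ℝ] V) (W : Submodule ℝ V) :
    finrank ℝ W ≤ finrank ℝ (W.map X) + finrank ℝ (LinearMap.ker X) := by
  have h1 := LinearMap.finrank_range_add_finrank_ker (X.domRestrict W)
  rw [LinearMap.range_domRestrict] at h1
  have h2 : finrank ℝ (LinearMap.ker (X.domRestrict W)) ≤ finrank ℝ (LinearMap.ker X) := by
    let f : LinearMap.ker (X.domRestrict W) →ₗ[ℝ] LinearMap.ker X :=
      (W.subtype.comp (LinearMap.ker (X.domRestrict W)).subtype).codRestrict _ fun x => x.2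
    refine LinearMap.finrank_le_finrank_of_injective (f := f) ?_
    intro x y hxy
    have := congrArg (fun z : LinearMap.ker X => (z : V)) hxy
    exact Subtype.ext (Subtype.ext this)
  omega

theorem finrank_comap_of_le (X : V →ₗ[ℝ] V) {W : Submodule ℝ V} (hW : W ≤ LinearMap.range X) :
    finrank ℝ (W.comap X) = finrank ℝ W + finrank ℝ (LinearMap.ker X) := by
  have h1 := LinearMap.finrank_range_add_finrank_ker (X.domRestrict (W.comap X))
  rw [LinearMap.range_domRestrict, Submodule.map_comap_eq, inf_eq_right.2 hW] at h1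
  rw [← h1]
  congr 1
  let f : LinearMap.ker (X.domRestrict (W.comap X)) ≃ₗ[ℝ] LinearMap.ker X :=
    { toFun := fun x => ⟨x.1.1, x.2⟩
      map_add' := fun _ _ => rfl
      map_smul' := fun _ _ => rfl
      invFun := fun y => ⟨⟨y.1, by
        rw [Submodule.mem_comap, LinearMap.mem_ker.1 y.2]
        exact W.zero_mem⟩, y.2⟩
      left_inv := fun _ => rfl
      right_inv := fun _ => rfl }
  exact f.finrank_eq

theorem map_lt (hX : IsNilpotent X) {W : Submodule ℝ V} (hW : ∀ v ∈ W, X v ∈ W) (hne : W ≠ ⊥) :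
    W.map X < W := by
  have hle : W.map X ≤ W := by
    rintro _ ⟨v, hv, rfl⟩
    exact hW v hv
  refine lt_of_le_of_ne hle fun heq => hne ?_
  obtain ⟨n, hn⟩ := hX
  have h1 : ∀ k : ℕ, W.map (X ^ k) = W := by
    intro k
    induction k with
    | zero => exact Submodule.map_id W
    | succ k ih =>
      rw [pow_succ', Module.End.mul_eq_comp, Submodule.map_comp, ih, heq]
  rw [← h1 n, hn, Submodule.map_zero]

theorem finrank_map_lt (hX : IsNilpotent X) {W : Submodule ℝ V} (hW : ∀ v ∈ W, X v ∈ W)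
    (hne : W ≠ ⊥) : finrank ℝ (W.map X) < finrank ℝ W :=
  Submodule.finrank_lt_finrank_of_lt (map_lt hX hW hne)

theorem ne_bot_of_finrank {W : Submodule ℝ V} (h : 0 < finrank ℝ W) : W ≠ ⊥ := by
  rintro rfl
  rw [finrank_bot] at h
  exact lt_irrefl _ h

theorem finrank_range_lt (hX : IsNilpotent X) (h : 0 < finrank ℝ V) :
    finrank ℝ (LinearMap.range X) < finrank ℝ V := by
  have h1 := finrank_map_lt hX (W := ⊤) (fun _ _ => Submodule.mem_top)
    (ne_bot_of_finrank (by rwa [finrank_top]))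
  rwa [finrank_top, ← LinearMap.range_eq_map] at h1

/-- a nilpotent map vanishes on invariant lines -/
theorem map_eq_bot_of_one (hX : IsNilpotent X) {W : Submodule ℝ V} (hW : ∀ v ∈ W, X v ∈ W)
    (hd : finrank ℝ W = 1) : ∀ v ∈ W, X v = 0 := by
  have h1 := finrank_map_lt hX hW (ne_bot_of_finrank (by omega))
  have h2 : finrank ℝ (W.map X) = 0 := by omega
  rw [Submodule.finrank_eq_zero] at h2
  intro v hv
  have h3 : X v ∈ W.map X := ⟨v, hv, rfl⟩
  rw [h2] at h3
  exact (Submodule.mem_bot ℝ).1 h3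

/-- a nilpotent map of rank one has square zero -/
theorem sq_zero_of_rank_one (hX : IsNilpotent X) (hd : finrank ℝ (LinearMap.range X) = 1) (v : V) :
    X (X v) = 0 :=
  map_eq_bot_of_one hX (W := LinearMap.range X) (fun _ _ => ⟨_, rfl⟩) hd _ ⟨v, rfl⟩

theorem finrank_sup_span {W : Submodule ℝ V} {v : V} (hv : v ∉ W) :
    finrank ℝ (W ⊔ Submodule.span ℝ {v} : Submodule ℝ V) = finrank ℝ W + 1 := by
  have hv0 : v ≠ 0 := by
    rintro rfl
    exact hv W.zero_mem
  have h1 := Submodule.finrank_sup_add_finrank_inf_eq W (Submodule.span ℝ {v})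
  have h2 : W ⊓ Submodule.span ℝ {v} = ⊥ := by
    rw [← disjoint_iff, Submodule.disjoint_span_singleton' hv0]
    exact hv
  rw [h2, finrank_bot, finrank_span_singleton hv0] at h1
  omega

end dims

/-! ### The modules -/

section LA

variable {V G : Type*} [NormedAddCommGroup V] [NormedSpace ℝ V] [FiniteDimensional ℝ V] [Group G]
  {a : G →* (V ≃ᵃ[ℝ] V)}

/-- A semi-invariant nilpotent map of rank at least two in dimension four. -/
theorem vsec_of_semi (hV : finrank ℝ V = 4) {X : V →ₗ[ℝ] V} (hX : IsNilpotent X) (hs : Semi a ⊤ X)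
    (hr : 2 ≤ finrank ℝ (LinearMap.range X))
    (h2 : (∃ v, X (X v) ≠ 0) ∨ ∃ v₀ : V, v₀ ≠ 0 ∧ X v₀ = 0 ∧
      LInv a ⊤ (Submodule.span ℝ {v₀})) : VSec a ⊥ ⊤ := by
  have hlt := finrank_range_lt hX (by omega)
  have hrk := LinearMap.finrank_range_add_finrank_ker X
  set W₁ := LinearMap.range X with hW₁
  have i₁ : LInv a ⊤ W₁ := hs.range
  have i₂ : LInv a ⊤ (W₁.map X) := hs.map i₁
  have s₁ : ∀ v ∈ W₁, X v ∈ W₁ := fun v _ => ⟨v, rfl⟩
  have l₂ := finrank_map_lt hX s₁ (ne_bot_of_finrank (by omega))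
  have le₂ : W₁.map X ≤ W₁ := by
    rintro _ ⟨v, _, rfl⟩
    exact ⟨v, rfl⟩
  have s₂ : ∀ v ∈ W₁.map X, X v ∈ W₁.map X := fun v hv => ⟨v, le₂ hv, rfl⟩
  by_cases h3 : finrank ℝ W₁ = 3
  · have e2 := finrank_le_map X W₁
    have e3 := finrank_le_map X (W₁.map X)
    have l₃ := finrank_map_lt hX s₂ (ne_bot_of_finrank (by omega))
    refine VSec.of_flag hV (hs.map i₂) i₂ i₁ ?_ le₂ (by omega) (by omega) h3
    rintro _ ⟨v, hv, rfl⟩
    exact ⟨v, le₂ hv, rfl⟩
  · have d₁ : finrank ℝ W₁ = 2 := by omega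
    by_cases hsq : ∃ v, X (X v) ≠ 0
    · have d₂ : finrank ℝ (W₁.map X) = 1 := by
        have : 0 < finrank ℝ (W₁.map X) := by
          rw [Nat.pos_iff_ne_zero]
          intro h0
          rw [Submodule.finrank_eq_zero] at h0
          obtain ⟨v, hv⟩ := hsq
          apply hv
          have h4 : X (X v) ∈ W₁.map X := ⟨X v, ⟨v, rfl⟩, rfl⟩
          rw [h0] at h4
          exact (Submodule.mem_bot ℝ).1 h4
        omega
      have hz := map_eq_bot_of_one hX s₂ d₂
      have hk := LinearMap.finrank_range_add_finrank_ker (X ∘ₗ X)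
      rw [LinearMap.range_comp, ← hW₁, d₂, hV] at hk
      have hk' : LinearMap.ker (X ∘ₗ X) = (LinearMap.ker X).comap X := rfl
      refine VSec.of_flag hV i₂ i₁ (W₃ := LinearMap.ker (X ∘ₗ X)) ?_ le₂ ?_ d₂ d₁ (by omega)
      · rw [hk']
        exact hs.comap hs.ker
      · rintro _ ⟨v, rfl⟩
        rw [LinearMap.mem_ker, LinearMap.comp_apply]
        exact hz _ ⟨X v, ⟨v, rfl⟩, rfl⟩
    · obtain ⟨v₀, hv₀, hXv, hinv⟩ := h2.resolve_left hsq
      push Not at hsq
      have hle : W₁ ≤ LinearMap.ker X := by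
        rintro _ ⟨v, rfl⟩
        exact hsq v
      have hEq : W₁ = LinearMap.ker X := Submodule.eq_of_le_of_finrank_le hle (by omega)
      have hs0 : Submodule.span ℝ {v₀} ≤ LinearMap.ker X :=
        (Submodule.span_singleton_le_iff_mem _ _).2 hXv
      have d := finrank_comap_of_le X (hs0.trans hEq.symm.le)
      rw [finrank_span_singleton hv₀] at d
      refine VSec.of_flag hV hinv hs.ker (hs.comap hinv) hs0 ?_ (finrank_span_singleton hv₀)
        (by omega) (by omega)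
      intro v hv
      rw [Submodule.mem_comap, LinearMap.mem_ker.1 hv]
      exact Submodule.zero_mem _

/-- A semi-invariant map of rank one and an invariant plane through its range in its kernel. -/
theorem vsec_of_rank_one (hV : finrank ℝ V = 4) {X : V →ₗ[ℝ] V} (hX : IsNilpotent X)
    (hs : Semi a ⊤ X) (hr : finrank ℝ (LinearMap.range X) = 1) {w : V}
    (hw : w ∉ LinearMap.range X) (hXw : X w = 0)
    (hinv : ∀ g, (a g).linear w ∈ LinearMap.range X ⊔ Submodule.span ℝ {w}) : VSec a ⊥ ⊤ := by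
  have hrk := LinearMap.finrank_range_add_finrank_ker X
  have hle : LinearMap.range X ≤ LinearMap.ker X := by
    rintro _ ⟨v, rfl⟩
    exact sq_zero_of_rank_one hX hr v
  refine VSec.of_flag hV hs.range (W₂ := LinearMap.range X ⊔ Submodule.span ℝ {w}) ?_ hs.ker
    le_sup_left ?_ hr ?_ (by omega)
  · intro g hg v hv
    obtain ⟨y, hy, z, hz, rfl⟩ := Submodule.mem_sup.1 hv
    obtain ⟨c, rfl⟩ := Submodule.mem_span_singleton.1 hz
    rw [map_add, map_smul]
    exact Submodule.add_mem _ (Submodule.mem_sup_left (hs.range g hg y hy))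
      (Submodule.smul_mem _ _ (hinv g))
  · exact sup_le hle ((Submodule.span_singleton_le_iff_mem _ _).2 hXw)
  · rw [finrank_sup_span hw, hr]

end LA

namespace LieData

variable {V E G : Type*} [NormedAddCommGroup V] [NormedSpace ℝ V] [FiniteDimensional ℝ V]
    [NormedAddCommGroup E] [NormedSpace ℝ E] [FiniteDimensional ℝ E] [Group G]
  (D : LieData V E G)

theorem semi_of {ζ : E} (hX : ∀ g, ∃ c : ℝ, D.X (D.ad g ζ) = c • D.X ζ) :
    Semi D.a ⊤ (D.X ζ) := by
  intro g _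
  obtain ⟨c, hc⟩ := hX g
  refine ⟨c, fun v => ?_⟩
  rw [← D.X_ad, hc, LinearMap.smul_apply]

theorem semi_of_line {ζ : E} (hl : ∀ g, D.ad g ζ ∈ Submodule.span ℝ {ζ}) :
    Semi D.a ⊤ (D.X ζ) := by
  refine D.semi_of fun g => ?_
  obtain ⟨c, hc⟩ := Submodule.mem_span_singleton.1 (hl g)
  exact ⟨c, by rw [← hc, map_smul]⟩

/-- LA1, the case of ranks at least two. -/
theorem vsec_of_rank (hV : finrank ℝ V = 4) {ζ : E}
    (hX : ∀ g, ∃ c : ℝ, D.X (D.ad g ζ) = c • D.X ζ)
    (hr : 2 ≤ finrank ℝ (LinearMap.range (D.X ζ)))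
    (h2 : (∃ v, D.X ζ (D.X ζ v) ≠ 0) ∨ ∃ v₀ : V, v₀ ≠ 0 ∧ D.X ζ v₀ = 0 ∧
      LInv D.a ⊤ (Submodule.span ℝ {v₀})) : VSec D.a ⊥ ⊤ :=
  vsec_of_semi hV (D.nil ζ) (D.semi_of hX) hr h2

/-- LA1 -/
theorem r1 (hV : finrank ℝ V = 4) {ζ : E} (hζ : ζ ≠ 0)
    (hl : ∀ g, D.ad g ζ ∈ Submodule.span ℝ {ζ}) :
    VSec D.a ⊥ ⊤ ∨ D.X ζ = 0 ∨
      (finrank ℝ (LinearMap.range (D.X ζ)) = 1 ∧ D.X ζ (D.w ζ) ≠ 0) := by
  have hs := D.semi_of_line hl
  have hw : D.w ζ ∉ LinearMap.range (D.X ζ) :=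
    D.w_notMem_range hζ (H := ⊤) inferInstance fun g _ => hl g
  have hA : ∀ g, ∃ c : ℝ, (D.a g).linear (D.w ζ) = c • D.w ζ + c • D.X ζ (D.a g 0) ∧
      ∀ v, (D.a g).linear (D.X ζ v) = c • D.X ζ ((D.a g).linear v) := by
    intro g
    obtain ⟨c, hc⟩ := Submodule.mem_span_singleton.1 (hl g)
    refine ⟨c, ?_, fun v => ?_⟩
    · have h1 := D.w_ad g ζ
      rw [← hc, map_smul, map_smul, LinearMap.smul_apply] at h1
      rw [h1, sub_add_cancel]
    · rw [← D.X_ad, ← hc, map_smul, LinearMap.smul_apply]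
  by_cases hX0 : D.X ζ = 0
  · exact Or.inr (Or.inl hX0)
  have hpos : 0 < finrank ℝ (LinearMap.range (D.X ζ)) := by
    rw [Nat.pos_iff_ne_zero]
    intro h0
    rw [Submodule.finrank_eq_zero, LinearMap.range_eq_bot] at h0
    exact hX0 h0
  by_cases h1 : finrank ℝ (LinearMap.range (D.X ζ)) = 1
  · by_cases hXw : D.X ζ (D.w ζ) = 0
    · refine Or.inl (vsec_of_rank_one hV (D.nil ζ) hs h1 hw hXw fun g => ?_)
      obtain ⟨c, hc, -⟩ := hA g
      rw [hc]
      exact Submodule.add_mem _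
        (Submodule.smul_mem _ _ (Submodule.mem_sup_right (Submodule.mem_span_singleton_self _)))
        (Submodule.smul_mem _ _ (Submodule.mem_sup_left ⟨_, rfl⟩))
    · exact Or.inr (Or.inr ⟨h1, hXw⟩)
  · refine Or.inl ?_
    by_cases hsq : ∃ v, D.X ζ (D.X ζ v) ≠ 0
    · exact vsec_of_semi hV (D.nil ζ) hs (by omega) (Or.inl hsq)
    · push Not at hsq
      have hrk := LinearMap.finrank_range_add_finrank_ker (D.X ζ)
      have hle : LinearMap.range (D.X ζ) ≤ LinearMap.ker (D.X ζ) := by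
        rintro _ ⟨v, rfl⟩
        exact hsq v
      have h2 := Submodule.finrank_mono hle
      have hEq : LinearMap.range (D.X ζ) = LinearMap.ker (D.X ζ) :=
        Submodule.eq_of_le_of_finrank_le hle (by omega)
      refine vsec_of_semi hV (D.nil ζ) hs (by omega)
        (Or.inr ⟨D.X ζ (D.w ζ), fun h3 => hw ?_, hsq _, ?_⟩)
      · rw [hEq]
        exact h3
      · refine LInv.span fun g _ v hv => ?_
        rw [mem_singleton_iff] at hv
        obtain ⟨c, hc, hc'⟩ := hA g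
        rw [hv, hc', hc, map_add, map_smul, map_smul, hsq, smul_zero, add_zero]
        exact Submodule.smul_mem _ _ (Submodule.smul_mem _ _ (Submodule.mem_span_singleton_self _))

/-- The action on the fields preserves the volume. -/
theorem abs_det_ad (g : G) : |LinearMap.det (D.ad g : E →ₗ[ℝ] E)| = 1 := by
  have := D.discrete
  have := D.lattice
  refine KT.abs_det_eq_one D.L (D.ad g) (D.L_ad g) fun x hx => ?_
  have h1 : (D.ad g).symm x = D.ad g⁻¹ x := by
    rw [LinearEquiv.symm_apply_eq, D.ad_inv']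
  rw [h1]
  exact D.L_ad g⁻¹ x hx

/-- A criterion for the case `QType`: the determinants of the maps `T x` onto `W` are constant. -/
theorem qtype_of_det {H : Subgroup G} {W : Submodule ℝ V} (hW : LInv D.a H W)
    (hX : ∀ ξ v, D.X ξ v ∈ W) (hw : ∀ ξ, D.w ξ ∈ W) (φ : W ≃ₗ[ℝ] E) (c : ℝ) (hc : c ≠ 0)
    (hdet : ∀ x, LinearMap.det (φ.toLinearMap ∘ₗ (D.T x).codRestrict W
      fun ξ => W.add_mem (hX ξ x) (hw ξ)) = c) : D.QType H := by
  refine ⟨W, hW, hX, hw, φ.finrank_eq, fun x ξ hξ => ?_, fun g hg h => ?_⟩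
  · have h1 : IsUnit (φ.toLinearMap ∘ₗ (D.T x).codRestrict W
        fun ξ => W.add_mem (hX ξ x) (hw ξ)) := by
      rw [LinearMap.isUnit_iff_isUnit_det, hdet x]
      exact isUnit_iff_ne_zero.2 hc
    have h2 := (LinearMap.isUnit_iff_ker_eq_bot _).1 h1
    rw [LinearMap.ker_eq_bot'] at h2
    refine h2 ξ ?_
    rw [LinearMap.comp_apply]
    have h3 : (D.T x).codRestrict W (fun ξ => W.add_mem (hX ξ x) (hw ξ)) ξ = 0 :=
      Subtype.ext hξ
    rw [h3, map_zero]
  · set x := D.x₀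
    set T₁ := φ.toLinearMap ∘ₗ (D.T x).codRestrict W fun ξ => W.add_mem (hX ξ x) (hw ξ) with hT₁
    set T₂ := φ.toLinearMap ∘ₗ (D.T (D.a g x)).codRestrict W
      fun ξ => W.add_mem (hX ξ (D.a g x)) (hw ξ) with hT₂
    set A := ((D.a g).linear : V →ₗ[ℝ] V).restrict h with hA
    have h1 : T₂ ∘ₗ (D.ad g : E →ₗ[ℝ] E) = (φ.toLinearMap ∘ₗ A ∘ₗ φ.symm.toLinearMap) ∘ₗ T₁ := by
      ext ξ
      simp only [hT₁, hT₂, LinearMap.comp_apply, LinearEquiv.coe_coe,
        LinearEquiv.symm_apply_apply]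
      congr 1
      refine Subtype.ext ?_
      exact D.T_ad g x ξ
    have h2 := congrArg LinearMap.det h1
    rw [LinearMap.det_comp, LinearMap.det_comp, hdet, hdet, LinearMap.det_conj, mul_comm] at h2
    have h3 : LinearMap.det (D.ad g : E →ₗ[ℝ] E) = LinearMap.det A := mul_right_cancel₀ hc h2
    rw [← h3]
    exact D.abs_det_ad g

/-- No linear parts. -/
theorem qtype_of_X_zero (hX : ∀ ξ, D.X ξ = 0) : D.QType ⊤ := by
  have hinj : Function.Injective D.w := by
    rw [← LinearMap.ker_eq_bot, LinearMap.ker_eq_bot']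
    exact fun ξ h => D.eq_zero_of (hX ξ) h
  have hw : ∀ g ξ, (D.a g).linear (D.w ξ) = D.w (D.ad g ξ) := by
    intro g ξ
    rw [D.w_ad, hX, LinearMap.zero_apply, sub_zero]
  refine D.qtype_of_det (W := LinearMap.range D.w) ?_ (fun ξ v => ?_) (fun ξ => ⟨ξ, rfl⟩)
    (LinearEquiv.ofInjective D.w hinj).symm 1 one_ne_zero fun x => ?_
  · rintro g _ _ ⟨ξ, rfl⟩
    exact ⟨D.ad g ξ, (hw g ξ).symm⟩
  · rw [hX, LinearMap.zero_apply]
    exact Submodule.zero_mem _
  · have h1 : (LinearEquiv.ofInjective D.w hinj).symm.toLinearMap ∘ₗ (D.T x).codRestrict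
        (LinearMap.range D.w) (fun ξ => (LinearMap.range D.w).add_mem (by
          rw [hX, LinearMap.zero_apply]
          exact Submodule.zero_mem _) ⟨ξ, rfl⟩) = LinearMap.id := by
      ext ξ
      rw [LinearMap.comp_apply, LinearEquiv.coe_coe, LinearMap.id_apply,
        LinearEquiv.symm_apply_eq]
      refine Subtype.ext ?_
      change D.X ξ x + D.w ξ = D.w ξ
      rw [hX, LinearMap.zero_apply, zero_add]
    rw [h1, LinearMap.det_id]

/-- LA1 -/
theorem good_one (hV : finrank ℝ V = 4) (hE : finrank ℝ E = 1) : D.Good := by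
  obtain ⟨ζ, hζ, hspan⟩ := finrank_eq_one_iff'.1 hE
  have hall : ∀ ξ, ξ ∈ Submodule.span ℝ {ζ} := fun ξ => by
    obtain ⟨c, hc⟩ := hspan ξ
    exact Submodule.mem_span_singleton.2 ⟨c, hc⟩
  rcases D.r1 hV hζ fun g => hall _ with h | h | ⟨h1, h2⟩
  · exact Or.inl h
  · refine Or.inr ⟨⊤, inferInstance, Or.inr (D.qtype_of_X_zero fun ξ => ?_)⟩
    obtain ⟨c, rfl⟩ := hspan ξ
    rw [map_smul, h, smul_zero]
  · have hrk := LinearMap.finrank_range_add_finrank_ker (D.X ζ)
    refine Or.inr ⟨⊤, inferInstance, Or.inl ⟨LinearMap.ker (D.X ζ),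
      (D.semi_of_line fun g => hall _).ker, fun ξ v => ?_, ?_⟩⟩
    · obtain ⟨c, rfl⟩ := hspan ξ
      rw [map_smul, LinearMap.smul_apply, LinearMap.mem_ker, map_smul,
        sq_zero_of_rank_one (D.nil ζ) h1, smul_zero]
    · have hinj : Function.Injective ((LinearMap.ker (D.X ζ)).mkQ ∘ₗ D.w) := by
        rw [← LinearMap.ker_eq_bot, LinearMap.ker_eq_bot']
        intro ξ hξ
        obtain ⟨c, rfl⟩ := hspan ξ
        rw [LinearMap.comp_apply, Submodule.mkQ_apply, Submodule.Quotient.mk_eq_zero,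
          LinearMap.mem_ker, map_smul, map_smul] at hξ
        rw [(smul_eq_zero.1 hξ).resolve_right h2, zero_smul]
      have hdim : finrank ℝ E = finrank ℝ (V ⧸ LinearMap.ker (D.X ζ)) := by
        have h3 := Submodule.finrank_quotient_add_finrank (LinearMap.ker (D.X ζ))
        omega
      exact ⟨hinj, (LinearMap.injective_iff_surjective_of_finrank_eq_finrank hdim).1 hinj⟩

end LieData

/-! ### The statements of `Stub.lean` -/

section stub

variable {V E G : Type*} [NormedAddCommGroup V] [NormedSpace ℝ V] [FiniteDimensional ℝ V]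
    [NormedAddCommGroup E] [NormedSpace ℝ E] [FiniteDimensional ℝ E] [Group G]
  (D : LieData V E G)

/-- LA1 -/
theorem r1 (hV : finrank ℝ V = 4) {ζ : E} (hζ : ζ ≠ 0)
    (hl : ∀ g, D.ad g ζ ∈ Submodule.span ℝ {ζ}) :
    VSec D.a ⊥ ⊤ ∨ D.X ζ = 0 ∨
      (finrank ℝ (LinearMap.range (D.X ζ)) = 1 ∧ D.X ζ (D.w ζ) ≠ 0) := D.r1 hV hζ hl

/-- LA1, the case of ranks at least two. -/
theorem vsec_of_rank (hV : finrank ℝ V = 4) {ζ : E}
    (hX : ∀ g, ∃ c : ℝ, D.X (D.ad g ζ) = c • D.X ζ)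
    (hr : 2 ≤ finrank ℝ (LinearMap.range (D.X ζ)))
    (h2 : (∃ v, D.X ζ (D.X ζ v) ≠ 0) ∨ ∃ v₀ : V, v₀ ≠ 0 ∧ D.X ζ v₀ = 0 ∧
      LInv D.a ⊤ (Submodule.span ℝ {v₀})) : VSec D.a ⊥ ⊤ := D.vsec_of_rank hV hX hr h2

/-- LA1 -/
theorem good_one (hV : finrank ℝ V = 4) (hE : finrank ℝ E = 1) : D.Good := D.good_one hV hE

end stub

end Pool.Agent.Helper77.K4
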