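import Pool.Agent.Helper78.K4.LA1

/-!
# Theorem K4R, module LA2T: `dim E = 2`, a translation among the fields
-/

set_option autoImplicit false
set_option linter.unusedSectionVars false

open Set Module

namespace Pool.Agent.Helper77.K4

section stub

variable {V E G : Type*} [NormedAddCommGroup V] [NormedSpace ℝ V] [FiniteDimensional ℝ V]
    [NormedAddCommGroup E] [NormedSpace ℝ E] [FiniteDimensional ℝ E] [Group G]
  (D : LieData V E G)

/-- LA2T -/
theorem good_two_T (hV : finrank ℝ V = 4) (hE : finrank ℝ E = 2)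
    (hT : ∃ ζ : E, ζ ≠ 0 ∧ D.X ζ = 0) : D.Good := by
  obtain ⟨ζ, hζ, hXζ⟩ := hT
  by_cases hall : ∀ ξ, D.X ξ = 0
  · exact Or.inr ⟨⊤, inferInstance, Or.inr (D.qtype_of_X_zero hall)⟩
  push Not at hall
  obtain ⟨ξ, hXξ⟩ := hall
  -- a basis of `E`
  have hli : LinearIndependent ℝ ![ξ, ζ] := by
    rw [LinearIndependent.pair_iff]
    intro s t hst
    have h1 := congrArg D.X hst
    rw [map_add, map_smul, map_smul, hXζ, smul_zero, add_zero, map_zero] at h1
    have hs := (smul_eq_zero.1 h1).resolve_right hXξ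
    rw [hs, zero_smul, zero_add] at hst
    exact ⟨hs, (smul_eq_zero.1 hst).resolve_right hζ⟩
  let b : Basis (Fin 2) ℝ E := basisOfLinearIndependentOfCardEqFinrank hli (by
    rw [hE, Fintype.card_fin])
  have b0 : b 0 = ξ := by simp [b]
  have b1 : b 1 = ζ := by simp [b]
  have hdec : ∀ η, η = b.repr η 0 • ξ + b.repr η 1 • ζ := by
    intro η
    conv_lhs => rw [← b.sum_repr η]
    rw [Fin.sum_univ_two, b0, b1]
  have hXη : ∀ η, D.X η = b.repr η 0 • D.X ξ := by
    intro η
    conv_lhs => rw [hdec η]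
    rw [map_add, map_smul, map_smul, hXζ, smul_zero, add_zero]
  have hwη : ∀ η, D.w η = b.repr η 0 • D.w ξ + b.repr η 1 • D.w ζ := by
    intro η
    conv_lhs => rw [hdec η]
    rw [map_add, map_smul, map_smul]
  -- the translation
  have hv₀ : D.w ζ ≠ 0 := fun h => hζ (D.eq_zero_of hXζ h)
  have hXv₀ : ∀ η, D.X η (D.w ζ) = 0 := by
    intro η
    rw [D.commw, hXζ, LinearMap.zero_apply]
  have hadζ : ∀ g, b.repr (D.ad g ζ) 0 = 0 := by
    intro g
    have h1 : D.X (D.ad g ζ) = 0 := by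
      ext v
      rw [D.X_ad', hXζ, LinearMap.zero_apply, map_zero, LinearMap.zero_apply]
    rw [hXη] at h1
    exact (smul_eq_zero.1 h1).resolve_right hXξ
  have hAv₀ : ∀ g, (D.a g).linear (D.w ζ) = b.repr (D.ad g ζ) 1 • D.w ζ := by
    intro g
    have h1 := D.w_ad g ζ
    rw [hXη (D.ad g ζ), hadζ g, zero_smul, LinearMap.zero_apply, sub_zero, hwη (D.ad g ζ), hadζ g,
      zero_smul, zero_add] at h1
    exact h1.symm
  have hAw : ∀ g, (D.a g).linear (D.w ξ) = b.repr (D.ad g ξ) 0 • D.w ξ +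
      b.repr (D.ad g ξ) 1 • D.w ζ + b.repr (D.ad g ξ) 0 • D.X ξ (D.a g 0) := by
    intro g
    have h1 := D.w_ad g ξ
    rw [hXη (D.ad g ξ), LinearMap.smul_apply, hwη (D.ad g ξ)] at h1
    rw [h1, sub_add_cancel]
  have hs : Semi D.a ⊤ (D.X ξ) := D.semi_of fun g => ⟨_, hXη _⟩
  by_cases hr : 2 ≤ finrank ℝ (LinearMap.range (D.X ξ))
  · refine Or.inl (D.vsec_of_rank hV (fun g => ⟨_, hXη _⟩) hr
      (Or.inr ⟨D.w ζ, hv₀, hXv₀ ξ, LInv.span fun g _ v hv => ?_⟩))
    rw [mem_singleton_iff] at hv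
    rw [hv, hAv₀]
    exact Submodule.smul_mem _ _ (Submodule.mem_span_singleton_self _)
  have hr1 : finrank ℝ (LinearMap.range (D.X ξ)) = 1 := by
    have : 0 < finrank ℝ (LinearMap.range (D.X ξ)) := by
      rw [Nat.pos_iff_ne_zero]
      intro h0
      rw [Submodule.finrank_eq_zero, LinearMap.range_eq_bot] at h0
      exact hXξ h0
    omega
  by_cases hv : D.w ζ ∈ LinearMap.range (D.X ξ)
  swap
  · refine Or.inl (vsec_of_rank_one hV (D.nil ξ) hs hr1 hv (hXv₀ ξ) fun g => ?_)
    rw [hAv₀]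
    exact Submodule.smul_mem _ _ (Submodule.mem_sup_right (Submodule.mem_span_singleton_self _))
  have hran : Submodule.span ℝ {D.w ζ} = LinearMap.range (D.X ξ) :=
    Submodule.eq_of_le_of_finrank_le ((Submodule.span_singleton_le_iff_mem _ _).2 hv)
      (by rw [hr1, finrank_span_singleton hv₀])
  have hwran : D.w ξ ∉ LinearMap.range (D.X ξ) := by
    intro h
    have h1 := D.finrank_le_of_T_mem (W := LinearMap.range (D.X ξ)) fun η => by
      rw [hXη η, hwη η, LinearMap.smul_apply]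
      exact Submodule.add_mem _ (Submodule.smul_mem _ _ ⟨_, rfl⟩)
        (Submodule.add_mem _ (Submodule.smul_mem _ _ h) (Submodule.smul_mem _ _ hv))
    omega
  by_cases hXw : D.X ξ (D.w ξ) = 0
  · refine Or.inl (vsec_of_rank_one hV (D.nil ξ) hs hr1 hwran hXw fun g => ?_)
    rw [hAw]
    refine Submodule.add_mem _ (Submodule.add_mem _ ?_ ?_) ?_
    · exact Submodule.smul_mem _ _ (Submodule.mem_sup_right (Submodule.mem_span_singleton_self _))
    · exact Submodule.smul_mem _ _ (Submodule.mem_sup_left hv)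
    · exact Submodule.smul_mem _ _ (Submodule.mem_sup_left ⟨_, rfl⟩)
  -- the orbits are parallel planes
  have hζT : ∀ x, D.T x ζ = D.w ζ := fun x => by
    rw [D.T_apply, hXζ, LinearMap.zero_apply, zero_add]
  have hmem : ∀ v, D.X ξ v ∈ LinearMap.range (D.T D.x₀) := by
    intro v
    have h1 : D.X ξ v ∈ Submodule.span ℝ {D.w ζ} := by
      rw [hran]
      exact ⟨v, rfl⟩
    obtain ⟨c, hc⟩ := Submodule.mem_span_singleton.1 h1
    exact ⟨c • ζ, by rw [map_smul, hζT, hc]⟩
  have hXm : ∀ η v, D.X η v ∈ LinearMap.range (D.T D.x₀) := by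
    intro η v
    rw [hXη, LinearMap.smul_apply]
    exact Submodule.smul_mem _ _ (hmem v)
  have hwm : ∀ η, D.w η ∈ LinearMap.range (D.T D.x₀) := by
    intro η
    have h1 : D.w η = D.T D.x₀ η - D.X η D.x₀ := by
      rw [D.T_apply, add_sub_cancel_left]
    rw [h1]
    exact Submodule.sub_mem _ ⟨η, rfl⟩ (hXm _ _)
  refine Or.inr ⟨⊤, inferInstance, Or.inr (D.qtype_of_det (W := LinearMap.range (D.T D.x₀))
    ?_ hXm hwm (LinearEquiv.ofInjective _ D.T_injective).symm 1 one_ne_zero fun x => ?_)⟩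
  · rintro g _ _ ⟨η, rfl⟩
    rw [← D.T_ad, D.T_apply]
    exact Submodule.add_mem _ (hXm _ _) (hwm _)
  · set F := (LinearEquiv.ofInjective _ D.T_injective).symm.toLinearMap ∘ₗ
      (D.T x).codRestrict (LinearMap.range (D.T D.x₀))
        (fun ξ => Submodule.add_mem _ (hXm ξ x) (hwm ξ)) with hF
    have hFη : ∀ η η', D.T x η = D.T D.x₀ η' → F η = η' := by
      intro η η' h
      rw [hF, LinearMap.comp_apply, LinearEquiv.coe_coe, LinearEquiv.symm_apply_eq]
      exact Subtype.ext h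
    have F1 : F (b 1) = b 1 := hFη _ _ (by rw [b1, hζT, hζT])
    obtain ⟨c, hc⟩ := Submodule.mem_span_singleton.1
      (show D.X ξ (x - D.x₀) ∈ Submodule.span ℝ {D.w ζ} by
        rw [hran]
        exact ⟨_, rfl⟩)
    have F0 : F (b 0) = b 0 + c • b 1 := hFη _ _ (by
      rw [b0, b1, map_add, map_smul, hζT, hc, D.T_apply, D.T_apply, map_sub]
      abel)
    rw [← LinearMap.det_toMatrix b, Matrix.det_fin_two]
    simp only [LinearMap.toMatrix_apply, F0, F1, map_add, map_smul, Basis.repr_self,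
      Finsupp.add_apply, Finsupp.smul_apply, Finsupp.single_apply]
    simp

end stub

end Pool.Agent.Helper77.K4
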